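import Mathlib

set_option autoImplicit false

namespace Pool.Agent.Lib.MP_a8e783_an

/-- The numerical radius v(T) = sup of |f (T x)| over the pairs (x, f) with norm x = 1,
norm f = 1 and f x = 1. -/
noncomputable def numRadius {X : Type*} [NormedAddCommGroup X] [NormedSpace ℝ X]
    (T : X →L[ℝ] X) : ℝ :=
  sSup {r : ℝ | ∃ (x : X) (f : StrongDual ℝ X), ‖x‖ = 1 ∧ ‖f‖ = 1 ∧ f x = 1 ∧ r = |f (T x)|}

/-- The quotient norm of T modulo the Lie algebra Z(X) of operators with numerical radius 0. -/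
noncomputable def quotNorm {X : Type*} [NormedAddCommGroup X] [NormedSpace ℝ X]
    (T : X →L[ℝ] X) : ℝ :=
  sInf {r : ℝ | ∃ S : X →L[ℝ] X, numRadius S = 0 ∧ r = ‖T - S‖}

/-- The second numerical index n'(X). -/
noncomputable def secondIndex (X : Type*) [NormedAddCommGroup X] [NormedSpace ℝ X] : ℝ :=
  sInf {r : ℝ | ∃ T : X →L[ℝ] X, numRadius T ≠ 0 ∧ r = numRadius T / quotNorm T}

end Pool.Agent.Lib.MP_a8e783_an
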