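import Pool.Agent.Lib.MP_a8e783_an.Space

set_option autoImplicit false

namespace Pool.Agent.Lib.MP_a8e783_an

open Filter Topology

variable {ε : ℝ}

/-- test vectors -/
noncomputable def tv (ε : ℝ) (k : ℂ) (s : ℕ → ℝ) (N : ℕ) : XS ε :=
  lift ε k + ∑ n ∈ Finset.range N, (s n - ε * k.re) • ev ε n

theorem zz_tv (k : ℂ) (s : ℕ → ℝ) (N : ℕ) : zz ε (tv ε k s N) = k := by
  simp [tv, map_sum]

theorem co_tv (k : ℂ) (s : ℕ → ℝ) (N m : ℕ) :
    co ε m (tv ε k s N) = if m < N then s m else ε * k.re := by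
  simp only [tv, map_add, map_sum, map_smul, co_lift, co_ev, smul_eq_mul, mul_ite, mul_one,
    mul_zero, Finset.sum_ite_eq, Finset.mem_range]
  split_ifs <;> ring

theorem norm_tv_le (h0 : 0 ≤ ε) (h1 : ε ≤ 1) {k : ℂ} (hk : ‖k‖ ≤ 1) {s : ℕ → ℝ}
    (hs : ∀ n, |s n| ≤ 1) (N : ℕ) : ‖tv ε k s N‖ ≤ 1 := by
  apply norm_le_of
  · rwa [zz_tv]
  · intro m
    rw [co_tv]
    split_ifs
    · exact hs m
    · rw [abs_mul, abs_of_nonneg h0]
      have := (Complex.abs_re_le_norm k).trans hk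
      nlinarith [abs_nonneg k.re]

theorem apply_tv (F : StrongDual ℝ (XS ε)) (k : ℂ) (s : ℕ → ℝ) (N : ℕ) :
    F (tv ε k s N) = F (lift ε k) + ∑ n ∈ Finset.range N, s n * F (ev ε n)
      - ε * k.re * ∑ n ∈ Finset.range N, F (ev ε n) := by
  simp only [tv, map_add, map_sum, map_smul, smul_eq_mul, sub_mul, Finset.sum_sub_distrib,
    Finset.mul_sum]
  ring

/-- signs -/
noncomputable def sg (F : StrongDual ℝ (XS ε)) (n : ℕ) : ℝ := if 0 ≤ F (ev ε n) then 1 else -1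

theorem abs_sg (F : StrongDual ℝ (XS ε)) (n : ℕ) : |sg F n| ≤ 1 := by
  unfold sg; split_ifs <;> simp

theorem sg_mul (F : StrongDual ℝ (XS ε)) (n : ℕ) : sg F n * F (ev ε n) = |F (ev ε n)| := by
  unfold sg
  split_ifs with h
  · rw [abs_of_nonneg h, one_mul]
  · rw [abs_of_neg (not_le.mp h)]; ring

theorem apply_le_norm (F : StrongDual ℝ (XS ε)) {x : XS ε} (hx : ‖x‖ ≤ 1) : F x ≤ ‖F‖ := by
  calc F x ≤ ‖F x‖ := Real.le_norm_self _
    _ ≤ ‖F‖ * ‖x‖ := F.le_opNorm x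
    _ ≤ ‖F‖ * 1 := by gcongr
    _ = _ := mul_one _

theorem sum_abs_le (h0 : 0 ≤ ε) (h1 : ε ≤ 1) (F : StrongDual ℝ (XS ε)) (N : ℕ) :
    ∑ n ∈ Finset.range N, |F (ev ε n)| ≤ ‖F‖ := by
  have := apply_le_norm F (norm_tv_le h0 h1 (k := 0) (by simp) (abs_sg F) N)
  simpa [apply_tv, sg_mul] using this

theorem summable_abs (h0 : 0 ≤ ε) (h1 : ε ≤ 1) (F : StrongDual ℝ (XS ε)) :
    Summable fun n => |F (ev ε n)| :=
  summable_of_sum_range_le (fun _ => abs_nonneg _) (sum_abs_le h0 h1 F)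

theorem summable_ev (h0 : 0 ≤ ε) (h1 : ε ≤ 1) (F : StrongDual ℝ (XS ε)) :
    Summable fun n => F (ev ε n) := (summable_abs h0 h1 F).of_abs

/-- the l1 norm of the sequence part -/
noncomputable def ll (F : StrongDual ℝ (XS ε)) : ℝ := ∑' n, |F (ev ε n)|

theorem ll_nonneg (F : StrongDual ℝ (XS ε)) : 0 ≤ ll F := tsum_nonneg fun _ => abs_nonneg _

theorem ll_le (h0 : 0 ≤ ε) (h1 : ε ≤ 1) (F : StrongDual ℝ (XS ε)) : ll F ≤ ‖F‖ :=
  Real.tsum_le_of_sum_range_le (fun _ => abs_nonneg _) (sum_abs_le h0 h1 F)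

/-- the plane part of a functional -/
noncomputable def w0 (F : StrongDual ℝ (XS ε)) : ℂ :=
  ⟨F (lift ε 1) - ε * ∑' n, F (ev ε n), F (lift ε Complex.I)⟩

theorem inner_eq (a b : ℂ) : inner ℝ a b = a.re * b.re + a.im * b.im := by
  rw [Complex.inner]; simp; ring

theorem inner_w0 (F : StrongDual ℝ (XS ε)) (k : ℂ) :
    inner ℝ (w0 F) k = F (lift ε k) - ε * k.re * ∑' n, F (ev ε n) := by
  have : k = k.re • (1 : ℂ) + k.im • Complex.I := by apply Complex.ext <;> simp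
  have h2 : F (lift ε k) = k.re * F (lift ε 1) + k.im * F (lift ε Complex.I) := by
    conv_lhs => rw [this]
    simp only [map_add, map_smul, smul_eq_mul]
  rw [inner_eq, h2]
  simp only [w0]
  ring

theorem tendsto_tv (h0 : 0 ≤ ε) (h1 : ε ≤ 1) (F : StrongDual ℝ (XS ε)) (k : ℂ) {s : ℕ → ℝ}
    (hs : Summable fun n => s n * F (ev ε n)) :
    Tendsto (fun N => F (tv ε k s N)) atTop
      (𝓝 (inner ℝ (w0 F) k + ∑' n, s n * F (ev ε n))) := by
  simp only [apply_tv]
  rw [inner_w0]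
  have a := hs.hasSum.tendsto_sum_nat
  have b := (summable_ev h0 h1 F).hasSum.tendsto_sum_nat
  have := (a.const_add (F (lift ε k))).sub (b.const_mul (ε * k.re))
  refine this.congr' (Eventually.of_forall fun _ => rfl) |>.mono_right ?_
  apply le_of_eq
  congr 1
  ring

theorem key_bound (h0 : 0 ≤ ε) (h1 : ε ≤ 1) (F : StrongDual ℝ (XS ε)) {k : ℂ} (hk : ‖k‖ ≤ 1)
    {B : ℝ} (h : ∀ x : XS ε, ‖x‖ ≤ 1 → zz ε x = k → F x ≤ B) :
    inner ℝ (w0 F) k + ll F ≤ B := by
  have := tendsto_tv h0 h1 F k (s := sg F) (by simpa only [sg_mul] using summable_abs h0 h1 F)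
  simp only [sg_mul] at this
  exact le_of_tendsto' this fun N => h _ (norm_tv_le h0 h1 hk (abs_sg F) N) (zz_tv _ _ _)

theorem norm_w0_add_le (h0 : 0 ≤ ε) (h1 : ε ≤ 1) (F : StrongDual ℝ (XS ε)) :
    ‖w0 F‖ + ll F ≤ ‖F‖ := by
  by_cases hw : w0 F = 0
  · simpa [hw] using ll_le h0 h1 F
  have hn : 0 < ‖w0 F‖ := norm_pos_iff.mpr hw
  have := key_bound h0 h1 F (k := ‖w0 F‖⁻¹ • w0 F)
    (by rw [norm_smul, norm_inv, norm_norm, inv_mul_cancel₀ hn.ne']) (B := ‖F‖)
    (fun x hx _ => apply_le_norm F hx)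
  rwa [inner_smul_right, real_inner_self_eq_norm_sq, sq, inv_mul_cancel_left₀ hn.ne'] at this

theorem summable_mul (h0 : 0 ≤ ε) (h1 : ε ≤ 1) (F : StrongDual ℝ (XS ε)) (x : XS ε) :
    Summable fun n => co ε n x * F (ev ε n) := by
  apply Summable.of_norm_bounded ((summable_abs h0 h1 F).mul_left ‖x‖)
  intro n
  rw [norm_mul, Real.norm_eq_abs, Real.norm_eq_abs]
  gcongr
  exact abs_co_le x n

theorem repr_apply (h0 : 0 ≤ ε) (h1 : ε ≤ 1) (F : StrongDual ℝ (XS ε)) (x : XS ε) :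
    F x = inner ℝ (w0 F) (zz ε x) + ∑' n, co ε n x * F (ev ε n) := by
  refine tendsto_nhds_unique ?_ (tendsto_tv h0 h1 F (zz ε x) (summable_mul h0 h1 F x))
  refine (F.continuous.tendsto x).comp ?_
  rw [Metric.tendsto_atTop]
  intro e he
  obtain ⟨N, hN⟩ := Metric.tendsto_atTop.mp (tendsto_lim x) (e / 2) (by positivity)
  refine ⟨N, fun M hM => ?_⟩
  rw [dist_eq_norm]
  refine lt_of_le_of_lt (norm_le_of _ (c := e / 2) ?_ ?_) (by linarith)
  · simp [zz_tv]; positivity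
  · intro m
    rw [map_sub, co_tv]
    split_ifs with hm
    · simp; positivity
    · have := hN m (by omega)
      rw [Real.dist_eq, abs_sub_comm] at this
      exact this.le

/-- the plane part as a continuous linear map -/
noncomputable def ww (h0 : 0 ≤ ε) (h1 : ε ≤ 1) : StrongDual ℝ (XS ε) →L[ℝ] ℂ :=
  LinearMap.mkContinuous
    { toFun := w0
      map_add' := fun F G => by
        apply Complex.ext
        · simp only [w0, add_apply, Complex.add_re]
          rw [(summable_ev h0 h1 F).tsum_add (summable_ev h0 h1 G)]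
          ring
        · simp [w0]
      map_smul' := fun c F => by
        apply Complex.ext
        · simp only [w0, smul_apply, smul_eq_mul, RingHom.id_apply, Complex.smul_re]
          rw [tsum_mul_left]
          ring
        · simp [w0] } 1
    (fun F => by
      have := norm_w0_add_le h0 h1 F
      have := ll_nonneg F
      simp only [LinearMap.coe_mk, AddHom.coe_mk]
      linarith)

theorem ww_apply (h0 : 0 ≤ ε) (h1 : ε ≤ 1) (F : StrongDual ℝ (XS ε)) : ww h0 h1 F = w0 F := rfl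

/-- the functional given by a vector of the plane -/
noncomputable def ph (ε : ℝ) : ℂ →L[ℝ] StrongDual ℝ (XS ε) :=
  LinearMap.toContinuousLinearMap
    { toFun := fun h => (innerSL ℝ h).comp (zz ε)
      map_add' := fun a b => by ext x; simp
      map_smul' := fun a b => by ext x; simp; ring }

theorem ph_apply (h : ℂ) (x : XS ε) : ph ε h x = inner ℝ h (zz ε x) := rfl

theorem norm_ph_le (h : ℂ) : ‖ph ε h‖ ≤ ‖h‖ := by
  apply ContinuousLinearMap.opNorm_le_bound _ (norm_nonneg _)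
  intro x
  rw [ph_apply]
  refine (norm_inner_le_norm _ _).trans ?_
  gcongr
  exact norm_zz_le x

theorem hasSum_repr (h0 : 0 ≤ ε) (h1 : ε ≤ 1) (F : StrongDual ℝ (XS ε)) :
    HasSum (fun n => F (ev ε n) • co ε n) (F - ph ε (w0 F)) := by
  have hs : Summable fun n => F (ev ε n) • co ε n := by
    apply Summable.of_norm_bounded (summable_abs h0 h1 F)
    intro n
    rw [norm_smul, Real.norm_eq_abs]
    have := norm_co_le (ε := ε) n
    nlinarith [abs_nonneg (F (ev ε n))]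
  have : F - ph ε (w0 F) = ∑' n, F (ev ε n) • co ε n := by
    ext x
    have h2 := ((ContinuousLinearMap.apply ℝ ℝ x).hasSum hs.hasSum).tsum_eq
    simp only [ContinuousLinearMap.apply_apply, smul_apply, smul_eq_mul] at h2
    rw [← h2, sub_apply, ph_apply, repr_apply h0 h1 F x]
    simp [mul_comm]
  rw [this]
  exact hs.hasSum

theorem norm_map_rest_le (h0 : 0 ≤ ε) (h1 : ε ≤ 1) {Z : Type*} [NormedAddCommGroup Z]
    [NormedSpace ℝ Z] (A : StrongDual ℝ (XS ε) →L[ℝ] Z) {c : ℝ} (hc : ∀ n, ‖A (co ε n)‖ ≤ c)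
    (F : StrongDual ℝ (XS ε)) : ‖A (F - ph ε (w0 F))‖ ≤ c * ll F := by
  have h := A.hasSum (hasSum_repr h0 h1 F)
  refine h.norm_le_of_bounded ((summable_abs h0 h1 F).hasSum.mul_left c) fun n => ?_
  rw [map_smul, norm_smul, Real.norm_eq_abs, mul_comm]
  gcongr
  exact hc n

theorem norm_rest_le (h0 : 0 ≤ ε) (h1 : ε ≤ 1) (F : StrongDual ℝ (XS ε)) :
    ‖F - ph ε (w0 F)‖ ≤ ll F := by
  simpa using norm_map_rest_le h0 h1 (ContinuousLinearMap.id ℝ _) (c := 1)
    (fun n => norm_co_le n) F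

theorem w0_ph (h : ℂ) : w0 (ph ε h) = h := by
  apply Complex.ext <;> simp [w0, ph_apply]

theorem w0_co (n : ℕ) : w0 (co ε n) = 0 := by
  apply Complex.ext
  · have : ∑' m, co ε n (ev ε m) = 1 := by
      rw [tsum_eq_single n (fun m hm => by simp [Ne.symm hm])]
      simp
    simp only [w0, this]
    simp
  · simp [w0]

/-- the rotation of the plane part -/
noncomputable def rot (h0 : 0 ≤ ε) (h1 : ε ≤ 1) (c : ℝ) :
    StrongDual ℝ (XS ε) →L[ℝ] StrongDual ℝ (XS ε) :=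
  (ph ε).comp ((c • ContinuousLinearMap.mul ℝ ℂ Complex.I).comp (ww h0 h1))

theorem rot_apply (h0 : 0 ≤ ε) (h1 : ε ≤ 1) (c : ℝ) (F : StrongDual ℝ (XS ε)) :
    rot h0 h1 c F = ph ε (c • (Complex.I * w0 F)) := rfl

theorem numRadius_rot (h0 : 0 ≤ ε) (h1 : ε ≤ 1) (c : ℝ) : numRadius (rot h0 h1 c) = 0 := by
  refine le_antisymm ?_ (numRadius_nonneg _)
  apply numRadius_le_of_growth _ le_rfl (sq_nonneg c)
  intro F hF s
  have e : F + s • rot h0 h1 c F
      = ph ε (w0 F + (s * c) • (Complex.I * w0 F)) + (F - ph ε (w0 F)) := by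
    rw [rot_apply, ← map_smul, smul_smul, map_add]
    abel
  rw [e]
  have a1 := norm_ph_le (ε := ε) (w0 F + (s * c) • (Complex.I * w0 F))
  have a2 := norm_rot (w0 F) (s * c)
  have a3 := norm_rest_le h0 h1 F
  have a4 := norm_w0_add_le h0 h1 F
  have a5 := ll_nonneg F
  have a6 : (s * c) ^ 2 * ‖w0 F‖ ≤ (s * c) ^ 2 * 1 := by
    gcongr
    linarith
  refine (norm_add_le _ _).trans ?_
  nlinarith

theorem apply_le_numRadius (R : StrongDual ℝ (XS ε) →L[ℝ] StrongDual ℝ (XS ε))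
    {F : StrongDual ℝ (XS ε)} {x : XS ε} (hF : ‖F‖ ≤ 1) (hx : ‖x‖ ≤ 1) (h : F x = 1) :
    |R F x| ≤ numRadius R := by
  have := le_numRadius' R (f := NormedSpace.inclusionInDoubleDual ℝ (XS ε) x) hF
    ((NormedSpace.double_dual_bound ℝ (XS ε) x).trans hx) h
  exact this

theorem exists_close (h0 : 0 ≤ ε) (h1 : ε ≤ 1)
    (R : StrongDual ℝ (XS ε) →L[ℝ] StrongDual ℝ (XS ε)) :
    ∃ S, numRadius S = 0 ∧ ‖R - S‖ ≤ 2 * numRadius R := by
  set v := numRadius R with hv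
  have hv0 : 0 ≤ v := numRadius_nonneg R
  have unit : ∀ h : ℂ, ‖h‖ = 1 →
      |inner ℝ (w0 (R (ph ε h))) h| ≤ v ∧ ll (R (ph ε h)) ≤ v := by
    intro h hh
    have b : ∀ x : XS ε, ‖x‖ ≤ 1 → zz ε x = h → |R (ph ε h) x| ≤ v := fun x hx hz =>
      apply_le_numRadius R ((norm_ph_le h).trans hh.le) hx (by
        rw [ph_apply, hz, real_inner_self_eq_norm_sq, hh]; norm_num)
    have k1 := key_bound h0 h1 (R (ph ε h)) hh.le (B := v)
      (fun x hx hz => (abs_le.mp (b x hx hz)).2)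
    have k2 := key_bound h0 h1 (-R (ph ε h)) hh.le (B := v)
      (fun x hx hz => by
        have := (abs_le.mp (b x hx hz)).1
        rw [neg_apply]; linarith)
    have e1 : w0 (-R (ph ε h)) = -w0 (R (ph ε h)) := map_neg (ww h0 h1) _
    have e2 : ll (-R (ph ε h)) = ll (R (ph ε h)) := by simp [ll]
    rw [e1, e2, inner_neg_left] at k2
    have := ll_nonneg (R (ph ε h))
    refine ⟨abs_le.mpr ⟨by linarith, by linarith⟩, by linarith⟩
  obtain ⟨c, hc⟩ := plane_lemma ((ww h0 h1).comp (R.comp (ph ε))) hv0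
    (fun z hz => (unit z hz).1)
  refine ⟨rot h0 h1 c, numRadius_rot h0 h1 c, ?_⟩
  have p1 : ‖(R - rot h0 h1 c).comp (ph ε)‖ ≤ 2 * v := by
    apply ContinuousLinearMap.opNorm_le_of_unit_norm (by positivity)
    intro h hh
    have e : (R - rot h0 h1 c).comp (ph ε) h
        = ph ε (w0 (R (ph ε h)) - c • (Complex.I * h))
          + (R (ph ε h) - ph ε (w0 (R (ph ε h)))) := by
      rw [ContinuousLinearMap.comp_apply, sub_apply, rot_apply, w0_ph, map_sub]
      abel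
    rw [e]
    have a1 := norm_ph_le (ε := ε) (w0 (R (ph ε h)) - c • (Complex.I * h))
    have a2 : ‖w0 (R (ph ε h)) - c • (Complex.I * h)‖ ≤ v * ‖h‖ := hc h
    have a3 := norm_rest_le h0 h1 (R (ph ε h))
    have a4 := (unit h hh).2
    rw [hh] at a2
    refine (norm_add_le _ _).trans ?_
    linarith
  have p2 : ∀ n, ‖(R - rot h0 h1 c) (co ε n)‖ ≤ v := by
    intro n
    rw [sub_apply, rot_apply, w0_co]
    simp only [mul_zero, smul_zero, map_zero, sub_zero]
    exact norm_le_of_face _ n fun x hx hn => apply_le_numRadius R (norm_co_le n) hx hn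
  apply ContinuousLinearMap.opNorm_le_bound _ (by positivity)
  intro F
  have e : (R - rot h0 h1 c) F
      = (R - rot h0 h1 c).comp (ph ε) (w0 F) + (R - rot h0 h1 c) (F - ph ε (w0 F)) := by
    rw [ContinuousLinearMap.comp_apply, ← map_add]
    congr 1
    abel
  rw [e]
  have a1 := ((R - rot h0 h1 c).comp (ph ε)).le_opNorm (w0 F)
  have a2 := norm_map_rest_le h0 h1 (R - rot h0 h1 c) p2 F
  have a3 := norm_w0_add_le h0 h1 F
  have a4 := ll_nonneg F
  have a5 : ‖(R - rot h0 h1 c).comp (ph ε)‖ * ‖w0 F‖ ≤ 2 * v * ‖w0 F‖ := by gcongr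
  refine (norm_add_le _ _).trans ?_
  nlinarith

theorem half_le_dual (h0 : 0 ≤ ε) (h1 : ε ≤ 1) :
    1 / 2 ≤ secondIndex (StrongDual ℝ (XS ε)) := by
  apply half_le_secondIndex _ (exists_close h0 h1)
  refine ⟨ContinuousLinearMap.id ℝ _, fun h => ?_⟩
  have := apply_le_numRadius (ContinuousLinearMap.id ℝ (StrongDual ℝ (XS ε)))
    (norm_co_le 0) (norm_ev_le 0) (by simp)
  rw [h] at this
  simp at this
  linarith

theorem nontrivial_XS : Nontrivial (XS ε) :=
  ⟨⟨ev ε 0, 0, fun h => by simpa using congrArg (co ε 0) h⟩⟩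

end Pool.Agent.Lib.MP_a8e783_an
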