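import Pool.Agent.Lib.MP_a8e783_an.Defs

set_option autoImplicit false

namespace Pool.Agent.Lib.MP_a8e783_an

variable {X : Type*} [NormedAddCommGroup X] [NormedSpace ℝ X]

theorem abs_apply_le (T : X →L[ℝ] X) {x : X} {f : StrongDual ℝ X} (hx : ‖x‖ = 1)
    (hf : ‖f‖ = 1) : |f (T x)| ≤ ‖T‖ := by
  calc |f (T x)| = ‖f (T x)‖ := (Real.norm_eq_abs _).symm
    _ ≤ ‖f‖ * ‖T x‖ := f.le_opNorm _
    _ ≤ ‖f‖ * (‖T‖ * ‖x‖) := by gcongr; exact T.le_opNorm _
    _ = ‖T‖ := by rw [hx, hf]; ring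

theorem le_numRadius (T : X →L[ℝ] X) {x : X} {f : StrongDual ℝ X} (hx : ‖x‖ = 1)
    (hf : ‖f‖ = 1) (hfx : f x = 1) : |f (T x)| ≤ numRadius T := by
  apply le_csSup
  · refine ⟨‖T‖, ?_⟩
    rintro r ⟨y, g, hy, hg, -, rfl⟩
    exact abs_apply_le T hy hg
  · exact ⟨x, f, hx, hf, hfx, rfl⟩

theorem numRadius_nonneg (T : X →L[ℝ] X) : 0 ≤ numRadius T := by
  apply Real.sSup_nonneg
  rintro r ⟨y, g, -, -, -, rfl⟩
  exact abs_nonneg _

theorem numRadius_le (T : X →L[ℝ] X) {c : ℝ} (hc : 0 ≤ c)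
    (h : ∀ (x : X) (f : StrongDual ℝ X), ‖x‖ = 1 → ‖f‖ = 1 → f x = 1 → |f (T x)| ≤ c) :
    numRadius T ≤ c := by
  apply Real.sSup_le _ hc
  rintro r ⟨y, g, hy, hg, hgy, rfl⟩
  exact h y g hy hg hgy

/-- first order growth of the norm of `x + s T x` bounds the numerical radius -/
theorem numRadius_le_of_growth (T : X →L[ℝ] X) {c K : ℝ} (hc : 0 ≤ c) (hK : 0 ≤ K)
    (h : ∀ x : X, ‖x‖ = 1 → ∀ s : ℝ, ‖x + s • T x‖ ≤ 1 + c * |s| + K * s ^ 2) :
    numRadius T ≤ c := by
  apply numRadius_le T hc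
  intro x f hx hf hfx
  have key : ∀ s : ℝ, s * f (T x) ≤ c * |s| + K * s ^ 2 := by
    intro s
    have h1 : f (x + s • T x) ≤ ‖x + s • T x‖ := by
      have := f.le_opNorm (x + s • T x)
      rw [hf, one_mul, Real.norm_eq_abs] at this
      exact (le_abs_self _).trans this
    rw [map_add, map_smul, hfx, smul_eq_mul] at h1
    linarith [h x hx s]
  apply le_of_forall_pos_le_add
  intro e he
  set s : ℝ := e / (K + 1) with hs
  have hs0 : 0 < s := by positivity
  have hKs : K * s ≤ e := by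
    rw [hs, ← mul_div_assoc, div_le_iff₀ (by positivity)]
    nlinarith
  have k1 := key s
  have k2 := key (-s)
  rw [abs_of_pos hs0] at k1
  rw [abs_neg, abs_of_pos hs0] at k2
  rw [abs_le]
  constructor
  · by_contra hh
    push Not at hh
    nlinarith
  · by_contra hh
    push Not at hh
    nlinarith

theorem numRadius_zero : numRadius (0 : X →L[ℝ] X) = 0 :=
  le_antisymm (numRadius_le _ le_rfl (by simp)) (numRadius_nonneg _)

theorem numRadius_le_norm_sub (T S : X →L[ℝ] X) (hS : numRadius S = 0) :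
    numRadius T ≤ ‖T - S‖ := by
  apply numRadius_le T (norm_nonneg _)
  intro x f hx hf hfx
  have h1 := le_numRadius S hx hf hfx
  have h2 := abs_apply_le (T - S) hx hf
  rw [hS] at h1
  have h3 : f (S x) = 0 := abs_nonpos_iff.mp h1
  simpa [h3] using h2

theorem le_quotNorm (T : X →L[ℝ] X) {c : ℝ}
    (h : ∀ S : X →L[ℝ] X, numRadius S = 0 → c ≤ ‖T - S‖) : c ≤ quotNorm T := by
  apply le_csInf
  · exact ⟨_, 0, numRadius_zero, rfl⟩
  · rintro r ⟨S, hS, rfl⟩
    exact h S hS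

theorem quotNorm_le (T S : X →L[ℝ] X) (hS : numRadius S = 0) : quotNorm T ≤ ‖T - S‖ := by
  apply csInf_le
  · refine ⟨0, ?_⟩
    rintro r ⟨S, -, rfl⟩
    exact norm_nonneg _
  · exact ⟨S, hS, rfl⟩

theorem numRadius_le_quotNorm (T : X →L[ℝ] X) : numRadius T ≤ quotNorm T :=
  le_quotNorm T (numRadius_le_norm_sub T)

theorem secondIndex_le (T : X →L[ℝ] X) {c : ℝ} (hc : numRadius T ≤ c) (hq : 1 ≤ quotNorm T) :
    secondIndex X ≤ c := by
  have hT : numRadius T ≠ 0 := by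
    intro h0
    have := quotNorm_le T T h0
    simp at this
    linarith
  have h1 : secondIndex X ≤ numRadius T / quotNorm T := by
    apply csInf_le
    · refine ⟨0, ?_⟩
      rintro r ⟨S, -, rfl⟩
      exact div_nonneg (numRadius_nonneg S) ((numRadius_nonneg S).trans (numRadius_le_quotNorm S))
    · exact ⟨T, hT, rfl⟩
  refine h1.trans ?_
  rw [div_le_iff₀ (by linarith)]
  nlinarith [numRadius_nonneg T]

theorem half_le_secondIndex (hne : ∃ T : X →L[ℝ] X, numRadius T ≠ 0)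
    (h : ∀ T : X →L[ℝ] X, ∃ S : X →L[ℝ] X, numRadius S = 0 ∧ ‖T - S‖ ≤ 2 * numRadius T) :
    1 / 2 ≤ secondIndex X := by
  apply le_csInf
  · obtain ⟨T, hT⟩ := hne
    exact ⟨_, T, hT, rfl⟩
  · rintro r ⟨T, hT, rfl⟩
    obtain ⟨S, hS, hTS⟩ := h T
    have h0 : 0 < numRadius T := lt_of_le_of_ne (numRadius_nonneg T) (Ne.symm hT)
    have h1 := numRadius_le_quotNorm T
    have h2 := quotNorm_le T S hS
    rw [le_div_iff₀ (by linarith)]
    linarith

/-- a real linear map of the plane whose quadratic form is bounded by v is within v of a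
multiple of the rotation -/
theorem plane_lemma (β : ℂ →L[ℝ] ℂ) {v : ℝ} (hv : 0 ≤ v)
    (h : ∀ z : ℂ, ‖z‖ = 1 → |inner ℝ (β z) z| ≤ v) :
    ∃ c : ℝ, ∀ z : ℂ, ‖β z - c • (Complex.I * z)‖ ≤ v * ‖z‖ := by
  have h' : ∀ z : ℂ, |inner ℝ (β z) z| ≤ v * ‖z‖ ^ 2 := by
    intro z
    by_cases hz : z = 0
    · simp [hz]
    have hn : 0 < ‖z‖ := norm_pos_iff.mpr hz
    have h1 := h ((‖z‖⁻¹ : ℝ) • z) (by
      rw [norm_smul, norm_inv, norm_norm, inv_mul_cancel₀ hn.ne'])
    rw [map_smul, inner_smul_left, inner_smul_right, abs_mul, abs_mul] at h1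
    simp only [conj_trivial, abs_inv, abs_norm] at h1
    rw [← mul_assoc, ← mul_inv, inv_mul_le_iff₀ (by positivity)] at h1
    nlinarith
  set p := (β 1).re
  set q := (β 1).im
  set r := (β Complex.I).re
  set s := (β Complex.I).im
  have hβ : ∀ z : ℂ, (β z).re = z.re * p + z.im * r ∧ (β z).im = z.re * q + z.im * s := by
    intro z
    have : β z = z.re • β 1 + z.im • β Complex.I := by
      rw [← map_smul, ← map_smul, ← map_add]
      congr 1
      apply Complex.ext <;> simp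
    rw [this]
    constructor <;> simp [p, q, r, s]
  have hq : ∀ x y : ℝ, |p * x ^ 2 + (q + r) * x * y + s * y ^ 2| ≤ v * (x ^ 2 + y ^ 2) := by
    intro x y
    have h1 := h' ⟨x, y⟩
    rw [Complex.sq_norm, Complex.normSq_apply, Complex.inner] at h1
    simp only [Complex.mul_re, Complex.conj_re, Complex.conj_im, (hβ _).1, (hβ _).2] at h1
    have e1 : p * x ^ 2 + (q + r) * x * y + s * y ^ 2
      = x * (x * p + y * r) - y * -(x * q + y * s) := by ring
    have e2 : x ^ 2 + y ^ 2 = x * x + y * y := by ring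
    rw [e1, e2]
    exact h1
  refine ⟨(q - r) / 2, fun z => ?_⟩
  set m := (q + r) / 2 with hm
  set x := z.re
  set y := z.im
  set a := p * x + m * y with ha
  set b := m * x + s * y with hb
  have hre : (β z - ((q - r) / 2) • (Complex.I * z)).re = a := by
    simp [(hβ z).1, ha, hm, x, y]; ring
  have him : (β z - ((q - r) / 2) • (Complex.I * z)).im = b := by
    simp [(hβ z).2, hb, hm, x, y]; ring
  have pol : ∀ t : ℝ, 2 * t * (a ^ 2 + b ^ 2) ≤ v * (x ^ 2 + y ^ 2 + t ^ 2 * (a ^ 2 + b ^ 2)) := by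
    intro t
    have h1 := (abs_le.mp (hq (x + t * a) (y + t * b))).2
    have h2 := (abs_le.mp (hq (x - t * a) (y - t * b))).1
    have e : q + r = 2 * m := by rw [hm]; ring
    rw [e] at h1 h2
    have e3 : 4 * t * (a ^ 2 + b ^ 2) =
        (p * (x + t * a) ^ 2 + 2 * m * (x + t * a) * (y + t * b) + s * (y + t * b) ^ 2)
        - (p * (x - t * a) ^ 2 + 2 * m * (x - t * a) * (y - t * b) + s * (y - t * b) ^ 2) := by
      have : a ^ 2 + b ^ 2 = a * (p * x + m * y) + b * (m * x + s * y) := by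
        rw [← ha, ← hb]; ring
      rw [this]; ring
    nlinarith
  have fin : a ^ 2 + b ^ 2 ≤ v ^ 2 * (x ^ 2 + y ^ 2) := by
    rcases hv.eq_or_lt with h0 | h0
    · have := pol 1
      rw [← h0] at this ⊢
      nlinarith
    · have := pol v⁻¹
      have e : v * (x ^ 2 + y ^ 2 + v⁻¹ ^ 2 * (a ^ 2 + b ^ 2))
          = v * (x ^ 2 + y ^ 2) + v⁻¹ * (a ^ 2 + b ^ 2) := by field_simp
      rw [e] at this
      have h3 : v⁻¹ * (a ^ 2 + b ^ 2) ≤ v * (x ^ 2 + y ^ 2) := by linarith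
      rw [inv_mul_le_iff₀ h0] at h3
      nlinarith
  apply abs_le_of_sq_le_sq' _ (by positivity) |>.2
  rw [mul_pow, Complex.sq_norm, Complex.sq_norm, Complex.normSq_apply, Complex.normSq_apply,
    hre, him]
  nlinarith

end Pool.Agent.Lib.MP_a8e783_an
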