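import Pool.Agent.Lib.MP_a8e783_an.General

set_option autoImplicit false

namespace Pool.Agent.Lib.MP_a8e783_an.T3

open Filter Topology
open scoped OnePoint

/-- Euclidean 3-space -/
abbrev H3 := EuclideanSpace ℝ (Fin 3)

/-- the rotation generator in the plane of the coordinates i, j -/
noncomputable def sk (i j : Fin 3) : H3 →L[ℝ] H3 :=
  (EuclideanSpace.proj i : H3 →L[ℝ] ℝ).smulRight (EuclideanSpace.single j 1)
    - (EuclideanSpace.proj j : H3 →L[ℝ] ℝ).smulRight (EuclideanSpace.single i 1)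

theorem sk_apply (i j : Fin 3) (z : H3) :
    sk i j z = z i • EuclideanSpace.single j (1 : ℝ) - z j • EuclideanSpace.single i (1 : ℝ) := by
  simp [sk]

theorem sk_skew (i j : Fin 3) (z : H3) : inner ℝ (sk i j z) z = 0 := by
  rw [sk_apply, inner_sub_left, inner_smul_left, inner_smul_left,
    EuclideanSpace.inner_single_left, EuclideanSpace.inner_single_left]
  simp
  ring

theorem abs_coord_le (z : H3) (i : Fin 3) : |z i| ≤ ‖z‖ := by
  simpa using PiLp.norm_apply_le z i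

theorem norm_rot (A : H3 →L[ℝ] H3) (hA : ∀ z, inner ℝ (A z) z = 0) (z : H3) (s : ℝ) :
    ‖z + s • A z‖ ≤ (1 + ‖A‖ ^ 2 * s ^ 2) * ‖z‖ := by
  apply abs_le_of_sq_le_sq' _ (by positivity) |>.2
  rw [norm_add_sq_real, inner_smul_right, real_inner_comm, hA, norm_smul, mul_pow, mul_pow,
    Real.norm_eq_abs, sq_abs]
  have h1 : ‖A z‖ ^ 2 ≤ (‖A‖ * ‖z‖) ^ 2 := pow_le_pow_left₀ (norm_nonneg _) (A.le_opNorm z) 2
  have h2 := mul_le_mul_of_nonneg_left h1 (sq_nonneg s)
  have h3 : 0 ≤ ‖A‖ ^ 2 * s ^ 2 * ‖z‖ ^ 2 := by positivity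
  nlinarith [sq_nonneg (‖A‖ ^ 2 * s ^ 2 * ‖z‖)]

/-- a linear map whose quadratic form is bounded by v is within v of a skew map -/
theorem skew_lemma (β : H3 →L[ℝ] H3) {v : ℝ} (hv : 0 ≤ v)
    (h : ∀ z : H3, ‖z‖ = 1 → |inner ℝ (β z) z| ≤ v) :
    ∃ A : H3 →L[ℝ] H3, (∀ z, inner ℝ (A z) z = 0) ∧ ∀ z, ‖β z - A z‖ ≤ v * ‖z‖ := by
  have h' : ∀ z : H3, |inner ℝ (β z) z| ≤ v * ‖z‖ ^ 2 := by
    intro z
    by_cases hz : z = 0
    · simp [hz]
    have hn : 0 < ‖z‖ := norm_pos_iff.mpr hz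
    have h1 := h ((‖z‖⁻¹ : ℝ) • z) (by
      rw [norm_smul, norm_inv, norm_norm, inv_mul_cancel₀ hn.ne'])
    rw [map_smul, inner_smul_left, inner_smul_right, abs_mul, abs_mul] at h1
    simp only [conj_trivial, abs_inv, abs_norm] at h1
    rw [← mul_assoc, ← mul_inv, inv_mul_le_iff₀ (by positivity)] at h1
    nlinarith
  set A : H3 →L[ℝ] H3 := (1 / 2 : ℝ) • (β - ContinuousLinearMap.adjoint β) with hA
  have hin : ∀ x y, inner ℝ (A x) y = (inner ℝ (β x) y - inner ℝ (β y) x) / 2 := by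
    intro x y
    rw [hA, smul_apply, sub_apply, inner_smul_left, inner_sub_left,
      ContinuousLinearMap.adjoint_inner_left, real_inner_comm (β y) x]
    simp only [conj_trivial]
    ring
  refine ⟨A, fun z => by rw [hin]; ring, fun z => ?_⟩
  set w := β z - A z with hw
  have hB : ∀ y, 2 * inner ℝ w y = inner ℝ (β z) y + inner ℝ (β y) z := by
    intro y
    rw [hw, inner_sub_left, hin]
    ring
  have pol : ∀ t : ℝ, 2 * t * ‖w‖ ^ 2 ≤ v * (‖z‖ ^ 2 + t ^ 2 * ‖w‖ ^ 2) := by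
    intro t
    have h1 := (abs_le.mp (h' (z + t • w))).2
    have h2 := (abs_le.mp (h' (z - t • w))).1
    have h3 := hB w
    rw [real_inner_self_eq_norm_sq] at h3
    rw [norm_add_sq_real] at h1
    rw [norm_sub_sq_real] at h2
    simp only [map_add, map_sub, map_smul, inner_add_left, inner_add_right, inner_sub_left,
      inner_sub_right, inner_smul_left, inner_smul_right, conj_trivial, norm_smul, mul_pow,
      Real.norm_eq_abs, sq_abs] at h1 h2
    have h4 : t * (2 * ‖w‖ ^ 2) = t * (inner ℝ (β z) w + inner ℝ (β w) z) := by rw [h3]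
    nlinarith
  apply abs_le_of_sq_le_sq' _ (by positivity) |>.2
  rcases hv.eq_or_lt with h0 | h0
  · have := pol 1
    rw [← h0] at this ⊢
    nlinarith [sq_nonneg ‖w‖]
  · have := pol v⁻¹
    have e : v * (‖z‖ ^ 2 + v⁻¹ ^ 2 * ‖w‖ ^ 2) = v * ‖z‖ ^ 2 + v⁻¹ * ‖w‖ ^ 2 := by field_simp
    rw [e] at this
    have h5 : v⁻¹ * ‖w‖ ^ 2 ≤ v * ‖z‖ ^ 2 := by linarith
    rw [inv_mul_le_iff₀ h0] at h5
    nlinarith

/-- convergent sequences -/
abbrev Cs := C(OnePoint ℕ, ℝ)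

/-- the functional (z, t) ↦ lim t - ε z 0 -/
noncomputable def Lf (ε : ℝ) : (H3 × Cs) →L[ℝ] ℝ :=
  (ContinuousMap.evalCLM ℝ (∞ : OnePoint ℕ)).comp (ContinuousLinearMap.snd ℝ H3 Cs)
    - ε • (EuclideanSpace.proj 0 : H3 →L[ℝ] ℝ).comp (ContinuousLinearMap.fst ℝ H3 Cs)

/-- the space X -/
def XS (ε : ℝ) : Type := (Lf ε).ker

variable {ε : ℝ}

noncomputable instance instNormedAddCommGroupXS : NormedAddCommGroup (XS ε) :=
  inferInstanceAs (NormedAddCommGroup (Lf ε).ker)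

noncomputable instance instNormedSpaceXS : NormedSpace ℝ (XS ε) :=
  inferInstanceAs (NormedSpace ℝ (Lf ε).ker)

instance instCompleteSpaceXS : CompleteSpace (XS ε) :=
  (ContinuousLinearMap.completeSpace_ker (Lf ε) : CompleteSpace (Lf ε).ker)

theorem mem_ker_iff (p : H3 × Cs) : p ∈ (Lf ε).ker ↔ p.2 ∞ = ε * p.1 0 := by
  simp [Lf, sub_eq_zero, ContinuousMap.evalCLM]

/-- the underlying pair -/
def pr (x : XS ε) : H3 × Cs := Subtype.val x

theorem norm_pr (x : XS ε) : ‖pr x‖ = ‖x‖ := rfl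

/-- the underlying pair as a continuous linear map -/
noncomputable def prL (ε : ℝ) : XS ε →L[ℝ] H3 × Cs :=
  LinearMap.mkContinuous
    { toFun := pr, map_add' := fun _ _ => rfl, map_smul' := fun _ _ => rfl } 1
    (fun x => by rw [one_mul]; exact (norm_pr x).le)

/-- first coordinate -/
noncomputable def zz (ε : ℝ) : XS ε →L[ℝ] H3 := (ContinuousLinearMap.fst ℝ H3 Cs).comp (prL ε)

/-- coordinate functionals -/
noncomputable def co (ε : ℝ) (n : ℕ) : StrongDual ℝ (XS ε) :=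
  (ContinuousMap.evalCLM ℝ (n : OnePoint ℕ)).comp
    ((ContinuousLinearMap.snd ℝ H3 Cs).comp (prL ε))

theorem zz_def (x : XS ε) : zz ε x = (pr x).1 := rfl

theorem co_def (n : ℕ) (x : XS ε) : co ε n x = (pr x).2 n := rfl

theorem lim_eq (x : XS ε) : (pr x).2 ∞ = ε * zz ε x 0 := (mem_ker_iff _).mp (Subtype.prop x)

theorem tendsto_lim (x : XS ε) :
    Tendsto (fun n : ℕ => co ε n x) atTop (𝓝 (ε * zz ε x 0)) := by
  rw [← lim_eq]
  exact (OnePoint.continuous_iff_from_nat _).mp (pr x).2.continuous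

theorem norm_zz_le (x : XS ε) : ‖zz ε x‖ ≤ ‖x‖ := norm_fst_le (pr x)

theorem abs_co_le (x : XS ε) (n : ℕ) : |co ε n x| ≤ ‖x‖ :=
  ((pr x).2.norm_coe_le_norm n).trans (norm_snd_le (pr x))

theorem norm_le_of (x : XS ε) {c : ℝ} (h1 : ‖zz ε x‖ ≤ c) (h2 : ∀ n : ℕ, |co ε n x| ≤ c) :
    ‖x‖ ≤ c := by
  have hc : 0 ≤ c := (norm_nonneg _).trans h1
  have h3 : |(pr x).2 ∞| ≤ c := by
    rw [lim_eq]
    exact le_of_tendsto' (tendsto_lim x).abs h2
  rw [← norm_pr, Prod.norm_def]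
  refine max_le h1 ((ContinuousMap.norm_le _ hc).mpr fun n => ?_)
  induction n using OnePoint.rec with
  | infty => exact h3
  | coe n => exact h2 n

/-- the unit sequence -/
noncomputable def dl (n : ℕ) : Cs :=
  OnePoint.continuousMapMkNat (fun m => if m = n then 1 else 0) 0 (by
    apply tendsto_const_nhds.congr'
    filter_upwards [eventually_gt_atTop n] with m hm
    simp [hm.ne'])

theorem dl_infty (n : ℕ) : dl n ∞ = 0 := rfl

/-- the unit vectors of X -/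
noncomputable def ev (ε : ℝ) (n : ℕ) : XS ε :=
  (⟨(0, dl n), (mem_ker_iff _).mpr (by simp [dl_infty])⟩ : (Lf ε).ker)

@[simp] theorem zz_ev (n : ℕ) : zz ε (ev ε n) = 0 := rfl

@[simp] theorem co_ev (n m : ℕ) : co ε m (ev ε n) = if m = n then 1 else 0 := rfl

/-- the lift z ↦ (z, constant ε z 0) -/
noncomputable def lift0 (ε : ℝ) (z : H3) : XS ε :=
  (⟨(z, ContinuousMap.const _ (ε * z 0)), (mem_ker_iff _).mpr rfl⟩ : (Lf ε).ker)

theorem zz_lift0 (z : H3) : zz ε (lift0 ε z) = z := rfl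

theorem co_lift0 (z : H3) (n : ℕ) : co ε n (lift0 ε z) = ε * z 0 := rfl

theorem ext_XS {x y : XS ε} (h1 : zz ε x = zz ε y) (h2 : ∀ n, co ε n x = co ε n y) : x = y := by
  rw [← sub_eq_zero, ← norm_le_zero_iff]
  apply norm_le_of <;> simp [h1, h2]

/-- the lift as a continuous linear map -/
noncomputable def lift (ε : ℝ) : H3 →L[ℝ] XS ε :=
  LinearMap.toContinuousLinearMap
    { toFun := lift0 ε
      map_add' := fun a b => ext_XS (by simp [zz_lift0]) (fun n => by simp [co_lift0]; ring)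
      map_smul' := fun a b => ext_XS (by simp [zz_lift0]) (fun n => by simp [co_lift0]; ring) }

@[simp] theorem zz_lift (z : H3) : zz ε (lift ε z) = z := rfl

@[simp] theorem co_lift (z : H3) (n : ℕ) : co ε n (lift ε z) = ε * z 0 := rfl

theorem norm_ev_le (n : ℕ) : ‖ev ε n‖ ≤ 1 :=
  norm_le_of _ (by simp) (fun m => by rw [co_ev]; split_ifs <;> simp)

theorem norm_co_le (n : ℕ) : ‖co ε n‖ ≤ 1 :=
  ContinuousLinearMap.opNorm_le_bound _ zero_le_one fun x => by
    rw [one_mul]; exact abs_co_le x n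

theorem norm_eq_one_of {Z : Type*} [NormedAddCommGroup Z] [NormedSpace ℝ Z] {x : Z}
    {f : StrongDual ℝ Z} (hx : ‖x‖ ≤ 1) (hf : ‖f‖ ≤ 1) (h : f x = 1) : ‖x‖ = 1 ∧ ‖f‖ = 1 := by
  have h1 := f.le_opNorm x
  rw [h, norm_one] at h1
  have := norm_nonneg x
  have := norm_nonneg f
  constructor <;> nlinarith

theorem le_numRadius' {Z : Type*} [NormedAddCommGroup Z] [NormedSpace ℝ Z] (T : Z →L[ℝ] Z)
    {x : Z} {f : StrongDual ℝ Z} (hx : ‖x‖ ≤ 1) (hf : ‖f‖ ≤ 1) (h : f x = 1) :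
    |f (T x)| ≤ numRadius T :=
  le_numRadius T (norm_eq_one_of hx hf h).1 (norm_eq_one_of hx hf h).2 h

/-- a functional bounded by c on the face of the ball where the n-th coordinate is 1 has norm
at most c -/
theorem norm_le_of_face (G : StrongDual ℝ (XS ε)) (n : ℕ) {c : ℝ}
    (h : ∀ x : XS ε, ‖x‖ ≤ 1 → co ε n x = 1 → |G x| ≤ c) : ‖G‖ ≤ c := by
  have hc : 0 ≤ c := (abs_nonneg _).trans (h (ev ε n) (norm_ev_le n) (by simp))
  apply ContinuousLinearMap.opNorm_le_of_unit_norm hc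
  intro x hx
  set t := co ε n x with ht
  have ht1 : |t| ≤ 1 := hx ▸ abs_co_le x n
  have key : ∀ y : XS ε, ‖y‖ = 1 → |G (y + (1 - co ε n y) • ev ε n)| ≤ c := by
    intro y hy
    apply h
    · apply norm_le_of
      · simpa [hy] using norm_zz_le y
      · intro m
        by_cases hm : m = n
        · simp [hm]
        · simpa [hm, hy] using abs_co_le y m
    · simp
  have k1 := key x hx
  have k2 := key (-x) (by rwa [norm_neg])
  simp only [map_add, map_smul, map_neg, smul_eq_mul, ← ht] at k1 k2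
  rw [Real.norm_eq_abs]
  rw [abs_le] at *
  constructor <;> nlinarith [k1.1, k1.2, k2.1, k2.2, ht1.1, ht1.2]

/-- the operator (z, t) ↦ (A z, constant ε (A z) 0) -/
noncomputable def Op (ε : ℝ) (A : H3 →L[ℝ] H3) : XS ε →L[ℝ] XS ε :=
  (lift ε).comp (A.comp (zz ε))

theorem Op_apply (A : H3 →L[ℝ] H3) (x : XS ε) : Op ε A x = lift ε (A (zz ε x)) := rfl

theorem numRadius_Op (h0 : 0 ≤ ε) (A : H3 →L[ℝ] H3) (hA : ∀ z, inner ℝ (A z) z = 0) {c : ℝ}
    (hc : 0 ≤ c) (hb : ∀ z, ‖z‖ ≤ 1 → |A z 0| ≤ c) : numRadius (Op ε A) ≤ ε * c := by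
  apply numRadius_le_of_growth _ (by positivity) (sq_nonneg ‖A‖)
  intro x hx s
  have h1 : ‖zz ε x‖ ≤ 1 := hx ▸ norm_zz_le x
  have hs : 0 ≤ ε * c * |s| := by positivity
  have hq : 0 ≤ ‖A‖ ^ 2 * s ^ 2 := by positivity
  apply norm_le_of
  · have := norm_rot A hA (zz ε x) s
    have h2 : (1 + ‖A‖ ^ 2 * s ^ 2) * ‖zz ε x‖ ≤ (1 + ‖A‖ ^ 2 * s ^ 2) * 1 := by gcongr
    simp only [Op_apply, map_add, map_smul, zz_lift]
    linarith
  · intro n
    have h2 : |co ε n x| ≤ 1 := hx ▸ abs_co_le x n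
    have h3 := hb _ h1
    simp only [Op_apply, map_add, map_smul, co_lift, smul_eq_mul]
    refine (abs_add_le _ _).trans ?_
    rw [abs_mul, abs_mul, abs_of_nonneg h0]
    have h4 : |s| * (ε * |A (zz ε x) 0|) ≤ |s| * (ε * c) := by gcongr
    nlinarith

/-- the almost skew operator -/
noncomputable def Top (ε : ℝ) : XS ε →L[ℝ] XS ε := Op ε (sk 1 0)

theorem numRadius_Top (h0 : 0 ≤ ε) : numRadius (Top ε) ≤ ε := by
  have := numRadius_Op h0 (sk 1 0) (sk_skew 1 0) zero_le_one fun z hz => by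
    simpa [sk_apply] using (abs_coord_le z 1).trans hz
  rwa [mul_one] at this

theorem exists_skew (h0 : 0 ≤ ε) : ∃ U : XS ε →L[ℝ] XS ε, U ≠ 0 ∧ numRadius U = 0 := by
  refine ⟨Op ε (sk 1 2), fun h => ?_, le_antisymm ?_ (numRadius_nonneg _)⟩
  · have := congrArg (fun U : XS ε →L[ℝ] XS ε =>
      zz ε (U (lift ε (EuclideanSpace.single 1 1))) 2) h
    simp [Op_apply, sk_apply] at this
  · have := numRadius_Op h0 (sk 1 2) (sk_skew 1 2) le_rfl fun z _ => by simp [sk_apply]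
    rwa [mul_zero] at this

theorem one_le_quotNorm_Top (h0 : 0 < ε) : 1 ≤ quotNorm (Top ε) := by
  apply le_quotNorm
  intro U hU
  have h1 : ∀ n : ℕ, (co ε n).comp U = 0 := by
    intro n
    rw [← norm_le_zero_iff]
    apply norm_le_of_face _ n
    intro x hx hxn
    rw [← hU]
    exact le_numRadius' U hx (norm_co_le n) hxn
  set x := lift ε (EuclideanSpace.single 1 1) with hx
  have h2 : zz ε (U x) 0 = 0 := by
    have h3 := tendsto_lim (U x)
    have h4 : (fun n : ℕ => co ε n (U x)) = fun _ => 0 := by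
      funext n
      simpa using congrArg (fun F : StrongDual ℝ (XS ε) => F x) (h1 n)
    rw [h4] at h3
    have := tendsto_nhds_unique h3 tendsto_const_nhds
    exact (mul_eq_zero.mp this).resolve_left h0.ne'
  have h5 : ‖x‖ ≤ 1 := norm_le_of _ (by simp [hx]) (by simp [hx])
  have h6 : zz ε ((Top ε - U) x) 0 = 1 := by
    rw [sub_apply, map_sub, PiLp.sub_apply, h2]
    simp [Top, Op_apply, hx, sk_apply]
  calc (1 : ℝ) = |zz ε ((Top ε - U) x) 0| := by rw [h6, abs_one]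
    _ ≤ ‖zz ε ((Top ε - U) x)‖ := abs_coord_le _ _
    _ ≤ ‖(Top ε - U) x‖ := norm_zz_le _
    _ ≤ ‖Top ε - U‖ * ‖x‖ := ContinuousLinearMap.le_opNorm _ _
    _ ≤ ‖Top ε - U‖ * 1 := by gcongr
    _ = _ := mul_one _

theorem secondIndex_XS (h0 : 0 < ε) : secondIndex (XS ε) ≤ ε :=
  secondIndex_le (Top ε) (numRadius_Top h0.le) (one_le_quotNorm_Top h0)

end Pool.Agent.Lib.MP_a8e783_an.T3
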